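import Pool.Agent.Q78.PCB.Defs

/-!
Stably realizable groups of piecewise continuous bijections of the circle modulo finitely
supported permutations.
-/

namespace Q78.Stab

open Q78.PCB

/-- The bijections `F` of `S ⊔ X` which fix all but finitely many points of `X` and agree on the
complement of a finite subset of `S` with a piecewise continuous bijection of `S`. -/
def PCX (X : Type) : Set (Equiv.Perm (S ⊕ X)) :=
  {F | {x : X | F (Sum.inr x) ≠ Sum.inr x}.Finite ∧
    ∃ f : PC, {x : S | F (Sum.inl x) ≠ Sum.inl (perm f x)}.Finite}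

open Classical in
/-- The canonical map `p_X` to the piecewise continuous bijections modulo finitely supported
permutations. -/
noncomputable def pX (X : Type) (F : Equiv.Perm (S ⊕ X)) : PCBow :=
  if h : ∃ f : PC, {x : S | F (Sum.inl x) ≠ Sum.inl (perm f x)}.Finite then proj h.choose else 1

/-- `Γ` lifts isomorphically to a group of bijections of `S ⊔ X` for some set `X`. -/
def StablyRealizable (Γ : Subgroup PCBow) : Prop :=
  ∃ (X : Type) (Λ : Subgroup (Equiv.Perm (S ⊕ X))), (Λ : Set (Equiv.Perm (S ⊕ X))) ⊆ PCX X ∧
    Set.BijOn (pX X) (Λ : Set (Equiv.Perm (S ⊕ X))) (Γ : Set PCBow)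

end Q78.Stab
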