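import Pool.Agent.Q78.PCB.Circle
import Pool.Agent.Q78.Stab.Defs

namespace Q78.Stab

open Q78.PCB Topology Set Filter

/-- representative in `[0, 1)` -/
noncomputable def rep (x : S) : ℝ := (AddCircle.equivIco (1 : ℝ) 0 x : ℝ)

theorem rep_nonneg (x : S) : 0 ≤ rep x := (AddCircle.equivIco (1 : ℝ) 0 x).2.1

theorem rep_lt (x : S) : rep x < 1 := by
  have := (AddCircle.equivIco (1 : ℝ) 0 x).2.2
  simpa [rep] using this

theorem coe_rep (x : S) : ((rep x : ℝ) : S) = x :=
  (AddCircle.equivIco (1 : ℝ) 0).symm_apply_apply x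

theorem rep_coe {t : ℝ} (h0 : 0 ≤ t) (h1 : t < 1) : rep (t : S) = t := by
  have : t ∈ Ico (0 : ℝ) (0 + 1) := ⟨h0, by linarith⟩
  have h := (AddCircle.equivIco (1 : ℝ) 0).apply_symm_apply ⟨t, this⟩
  exact congrArg Subtype.val h

theorem rep_zero : rep 0 = 0 := by
  have := rep_coe (t := 0) le_rfl zero_lt_one
  simpa using this

theorem rep_eq_zero {x : S} : rep x = 0 ↔ x = 0 := by
  constructor
  · intro h
    rw [← coe_rep x, h]
    rfl
  · rintro rfl
    exact rep_zero

theorem rep_hh : rep hh = 1 / 2 := rep_coe (by norm_num) (by norm_num)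

theorem rep_eq_half {x : S} : rep x = 1 / 2 ↔ x = hh := by
  constructor
  · intro h
    rw [← coe_rep x, h]
    rfl
  · rintro rfl
    exact rep_hh

theorem rep_neg {x : S} (hx : x ≠ 0) : rep (-x) = 1 - rep x := by
  have h0 : 0 < rep x := lt_of_le_of_ne (rep_nonneg x) (fun h => hx (rep_eq_zero.1 h.symm))
  have h1 := rep_lt x
  have h2 : -x = ((1 - rep x : ℝ) : S) := by
    rw [AddCircle.coe_sub, coe_rep, AddCircle.coe_period, zero_sub]
  rw [h2, rep_coe (by linarith) (by linarith)]

theorem continuousAt_rep {x : S} (hx : x ≠ 0) : ContinuousAt rep x := by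
  have h : ContinuousAt (AddCircle.equivIco (1 : ℝ) 0) x :=
    AddCircle.continuousAt_equivIco (1 : ℝ) 0 (by simpa using hx)
  exact continuous_subtype_val.continuousAt.comp h

theorem continuous_coe : Continuous (fun t : ℝ => (t : S)) := continuous_quotient_mk'

/-- first coordinate of `κ` -/
noncomputable def k1 (x : S) : S :=
  if rep x < 1 / 2 then ((rep x / (1 - rep x) : ℝ) : S) else (((1 - rep x) / rep x : ℝ) : S)

open Classical in
/-- second coordinate of `κ` -/
noncomputable def ee (x : S) : ZMod 2 := if rep x < 1 / 2 then 0 else 1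

open Classical in
/-- inverse of `κ` -/
noncomputable def K (ε : ZMod 2) (u : S) : S :=
  if ε = 0 then ((rep u / (1 + rep u) : ℝ) : S)
  else if u = 0 then hh else ((1 / (1 + rep u) : ℝ) : S)

theorem zmod2 (ε : ZMod 2) (h : ε ≠ 0) : ε = 1 := by
  revert ε; decide

theorem K_k1 (x : S) : K (ee x) (k1 x) = x := by
  have h0 := rep_nonneg x
  have h1 := rep_lt x
  by_cases h : rep x < 1 / 2
  · have e1 : ee x = 0 := if_pos h
    have e2 : k1 x = ((rep x / (1 - rep x) : ℝ) : S) := if_pos h
    have e3 : rep (k1 x) = rep x / (1 - rep x) := by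
      rw [e2]
      apply rep_coe
      · exact div_nonneg h0 (by linarith)
      · rw [div_lt_one (by linarith)]; linarith
    have e4 : K (ee x) (k1 x) = ((rep (k1 x) / (1 + rep (k1 x)) : ℝ) : S) := by
      rw [e1]; exact if_pos rfl
    rw [e4, e3]
    have : rep x / (1 - rep x) / (1 + rep x / (1 - rep x)) = rep x := by
      have : 1 - rep x ≠ 0 := by linarith
      field_simp
      ring
    rw [this, coe_rep]
  · have h' : 1 / 2 ≤ rep x := not_lt.1 h
    have e1 : ee x = 1 := if_neg h
    have e2 : k1 x = (((1 - rep x) / rep x : ℝ) : S) := if_neg h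
    rcases h'.lt_or_eq with h2 | h2
    · have e3 : rep (k1 x) = (1 - rep x) / rep x := by
        rw [e2]
        apply rep_coe
        · exact div_nonneg (by linarith) h0
        · rw [div_lt_one (by linarith)]; linarith
      have e5 : k1 x ≠ 0 := by
        intro h3
        rw [← rep_eq_zero, e3, div_eq_zero_iff] at h3
        rcases h3 with h3 | h3 <;> linarith
      have e4 : K (ee x) (k1 x) = ((1 / (1 + rep (k1 x)) : ℝ) : S) := by
        rw [e1]
        unfold K
        rw [if_neg (by decide), if_neg e5]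
      rw [e4, e3]
      have : 1 / (1 + (1 - rep x) / rep x) = rep x := by
        have : rep x ≠ 0 := by linarith
        field_simp
        ring
      rw [this, coe_rep]
    · have e5 : k1 x = 0 := by
        rw [e2, ← h2]
        have : ((1 - 1 / 2) / (1 / 2) : ℝ) = 1 := by norm_num
        rw [this]
        exact AddCircle.coe_period 1
      rw [e1, e5]
      unfold K
      rw [if_neg (by decide), if_pos rfl]
      exact (rep_eq_half.1 h2.symm).symm

theorem rep_K_zero (u : S) : rep (K 0 u) = rep u / (1 + rep u) := by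
  have h0 := rep_nonneg u
  have h1 := rep_lt u
  have e : K 0 u = ((rep u / (1 + rep u) : ℝ) : S) := if_pos rfl
  rw [e]
  apply rep_coe (by positivity)
  rw [div_lt_one (by linarith)]; linarith

theorem rep_K_one (u : S) : rep (K 1 u) = if u = 0 then 1 / 2 else 1 / (1 + rep u) := by
  have h0 := rep_nonneg u
  have h1 := rep_lt u
  by_cases h : u = 0
  · have e : K 1 u = hh := by
      unfold K
      rw [if_neg (by decide), if_pos h]
    rw [e, if_pos h, rep_hh]
  · have e : K 1 u = ((1 / (1 + rep u) : ℝ) : S) := by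
      unfold K
      rw [if_neg (by decide), if_neg h]
    have hpos : 0 < rep u := lt_of_le_of_ne h0 (fun h' => h (rep_eq_zero.1 h'.symm))
    rw [e, if_neg h]
    apply rep_coe (by positivity)
    rw [div_lt_one (by linarith)]; linarith

theorem k1_K (ε : ZMod 2) (u : S) : k1 (K ε u) = u ∧ ee (K ε u) = ε := by
  have h0 := rep_nonneg u
  have h1 := rep_lt u
  by_cases hε : ε = 0
  · subst hε
    have h := rep_K_zero u
    have hlt : rep (K 0 u) < 1 / 2 := by
      rw [h, div_lt_iff₀ (by linarith)]; linarith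
    refine ⟨?_, if_pos hlt⟩
    have e : k1 (K 0 u) = ((rep (K 0 u) / (1 - rep (K 0 u)) : ℝ) : S) := if_pos hlt
    rw [e, h]
    have : rep u / (1 + rep u) / (1 - rep u / (1 + rep u)) = rep u := by
      have : 1 + rep u ≠ 0 := by linarith
      field_simp
      ring
    rw [this, coe_rep]
  · have hε' := zmod2 ε hε
    subst hε'
    have h := rep_K_one u
    by_cases hu : u = 0
    · rw [if_pos hu] at h
      have hnl : ¬ rep (K 1 u) < 1 / 2 := by rw [h]; norm_num
      refine ⟨?_, if_neg hnl⟩
      have e : k1 (K 1 u) = (((1 - rep (K 1 u)) / rep (K 1 u) : ℝ) : S) := if_neg hnl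
      rw [e, h, hu]
      have : ((1 - 1 / 2) / (1 / 2) : ℝ) = 1 := by norm_num
      rw [this]
      exact AddCircle.coe_period 1
    · rw [if_neg hu] at h
      have hpos : 0 < rep u := lt_of_le_of_ne h0 (fun h' => hu (rep_eq_zero.1 h'.symm))
      have hnl : ¬ rep (K 1 u) < 1 / 2 := by
        rw [h, not_lt, le_div_iff₀ (by linarith)]; linarith
      refine ⟨?_, if_neg hnl⟩
      have e : k1 (K 1 u) = (((1 - rep (K 1 u)) / rep (K 1 u) : ℝ) : S) := if_neg hnl
      rw [e, h]
      have : (1 - 1 / (1 + rep u)) / (1 / (1 + rep u)) = rep u := by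
        have : 1 + rep u ≠ 0 := by linarith
        field_simp
        ring
      rw [this, coe_rep]

/-- The bijection `κ : S → S × ℤ/2`. -/
noncomputable def kap : S ≃ S × ZMod 2 where
  toFun x := (k1 x, ee x)
  invFun p := K p.2 p.1
  left_inv x := K_k1 x
  right_inv p := Prod.ext (k1_K p.2 p.1).1 (k1_K p.2 p.1).2

theorem kap_apply (x : S) : kap x = (k1 x, ee x) := rfl

theorem kap_symm_apply (p : S × ZMod 2) : kap.symm p = K p.2 p.1 := rfl

theorem kap_zero : kap 0 = (0, 0) := by
  have h : rep 0 < 1 / 2 := by rw [rep_zero]; norm_num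
  have e1 : ee 0 = 0 := if_pos h
  have e2 : k1 0 = ((rep 0 / (1 - rep 0) : ℝ) : S) := if_pos h
  rw [kap_apply, e1, e2, rep_zero]
  simp

theorem kap_hh : kap hh = (0, 1) := by
  have h := kap.apply_symm_apply ((0, 1) : S × ZMod 2)
  have h2 : kap.symm ((0, 1) : S × ZMod 2) = hh := by
    rw [kap_symm_apply]
    unfold K
    rw [if_neg (by decide), if_pos rfl]
  rwa [h2] at h

theorem kap_neg {x : S} (h0 : x ≠ 0) (h1 : x ≠ hh) : kap (-x) = kap x + (0, 1) := by
  have hr0 : 0 < rep x := lt_of_le_of_ne (rep_nonneg x) (fun h => h0 (rep_eq_zero.1 h.symm))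
  have hrl := rep_lt x
  have hr1 : rep x ≠ 1 / 2 := fun h => h1 (rep_eq_half.1 h)
  have hn := rep_neg h0
  rcases lt_or_gt_of_ne hr1 with h | h
  · have h' : ¬ rep (-x) < 1 / 2 := by rw [hn]; linarith
    have e1 : ee x = 0 := if_pos h
    have e2 : k1 x = ((rep x / (1 - rep x) : ℝ) : S) := if_pos h
    have e3 : ee (-x) = 1 := if_neg h'
    have e4 : k1 (-x) = (((1 - rep (-x)) / rep (-x) : ℝ) : S) := if_neg h'
    rw [kap_apply, kap_apply, e1, e2, e3, e4, hn]
    have e5 : (1 - (1 - rep x)) / (1 - rep x) = rep x / (1 - rep x) := by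
      congr 1; ring
    rw [e5]
    ext <;> simp
  · have h' : rep (-x) < 1 / 2 := by rw [hn]; linarith
    have h'' : ¬ rep x < 1 / 2 := by linarith
    have e1 : ee x = 1 := if_neg h''
    have e2 : k1 x = (((1 - rep x) / rep x : ℝ) : S) := if_neg h''
    have e3 : ee (-x) = 0 := if_pos h'
    have e4 : k1 (-x) = ((rep (-x) / (1 - rep (-x)) : ℝ) : S) := if_pos h'
    rw [kap_apply, kap_apply, e1, e2, e3, e4, hn]
    have e5 : (1 - rep x) / (1 - (1 - rep x)) = (1 - rep x) / rep x := by
      congr 1; ring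
    rw [e5]
    have e6 : (1 : ZMod 2) + 1 = 0 := by decide
    simp only [Prod.mk_add_mk, add_zero, e6]

/-! ### Continuity -/

theorem ee_eventually {x : S} (h0 : x ≠ 0) (h1 : x ≠ hh) : ∀ᶠ y in 𝓝 x, ee y = ee x := by
  have hr1 : rep x ≠ 1 / 2 := fun h => h1 (rep_eq_half.1 h)
  have hc := continuousAt_rep h0
  rcases lt_or_gt_of_ne hr1 with h | h
  · filter_upwards [hc.eventually (gt_mem_nhds h)] with y hy
    have e1 : ee x = 0 := if_pos h
    have e2 : ee y = 0 := if_pos hy
    rw [e1, e2]
  · filter_upwards [hc.eventually (lt_mem_nhds h)] with y hy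
    have e1 : ee x = 1 := if_neg (not_lt.2 (le_of_lt h))
    have e2 : ee y = 1 := if_neg (not_lt.2 (le_of_lt hy))
    rw [e1, e2]

theorem k1_continuousAt {x : S} (h0 : x ≠ 0) (h1 : x ≠ hh) : ContinuousAt k1 x := by
  have hr1 : rep x ≠ 1 / 2 := fun h => h1 (rep_eq_half.1 h)
  have hr0 : rep x ≠ 0 := fun h => h0 (rep_eq_zero.1 h)
  have hrl := rep_lt x
  have hc := continuousAt_rep h0
  rcases lt_or_gt_of_ne hr1 with h | h
  · have hcont : ContinuousAt (fun y => ((rep y / (1 - rep y) : ℝ) : S)) x := by
      apply continuous_coe.continuousAt.comp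
      exact hc.div (continuousAt_const.sub hc) (by linarith)
    refine hcont.congr ?_
    filter_upwards [hc.eventually (gt_mem_nhds h)] with y hy
    exact (if_pos hy).symm
  · have hcont : ContinuousAt (fun y => (((1 - rep y) / rep y : ℝ) : S)) x := by
      apply continuous_coe.continuousAt.comp
      exact (continuousAt_const.sub hc).div hc hr0
    refine hcont.congr ?_
    filter_upwards [hc.eventually (lt_mem_nhds h)] with y hy
    exact (if_neg (not_lt.2 (le_of_lt hy))).symm

theorem K_continuousAt (ε : ZMod 2) {u : S} (hu : u ≠ 0) : ContinuousAt (K ε) u := by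
  have hc := continuousAt_rep hu
  have h0 := rep_nonneg u
  by_cases hε : ε = 0
  · subst hε
    have hcont : ContinuousAt (fun y => ((rep y / (1 + rep y) : ℝ) : S)) u := by
      apply continuous_coe.continuousAt.comp
      exact hc.div (continuousAt_const.add hc) (by linarith)
    refine hcont.congr (Eventually.of_forall fun y => ?_)
    exact (if_pos rfl).symm
  · have hε' := zmod2 ε hε
    subst hε'
    have hcont : ContinuousAt (fun y => ((1 / (1 + rep y) : ℝ) : S)) u := by
      apply continuous_coe.continuousAt.comp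
      exact continuousAt_const.div (continuousAt_const.add hc) (by linarith)
    refine hcont.congr ?_
    filter_upwards [isOpen_ne.mem_nhds hu] with y hy
    unfold K
    rw [if_neg (by decide), if_neg hy]

/-- translation by `v` on `S × ℤ/2` transported to `S`. -/
noncomputable def rho (v : S × ZMod 2) : Equiv.Perm S :=
  (kap.trans (Equiv.addRight v)).trans kap.symm

theorem rho_apply (v : S × ZMod 2) (x : S) : rho v x = kap.symm (kap x + v) := rfl

theorem rho_add (v w : S × ZMod 2) : rho (v + w) = rho v * rho w := by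
  ext x
  rw [Equiv.Perm.mul_apply, rho_apply, rho_apply, rho_apply, Equiv.apply_symm_apply]
  congr 1
  abel

theorem rho_zero : rho 0 = 1 := by
  ext x
  rw [rho_apply, add_zero, Equiv.symm_apply_apply]
  rfl

theorem rho_inv (v : S × ZMod 2) : (rho v)⁻¹ = rho (-v) := by
  rw [inv_eq_iff_mul_eq_one, ← rho_add, add_neg_cancel, rho_zero]

theorem rho_cofin (v : S × ZMod 2) : CofinContinuous (rho v) := by
  have hfin : ({0, hh} ∪ kap ⁻¹' {(-v.1, 0), (-v.1, 1)} : Set S).Finite := by
    apply Set.Finite.union (Set.toFinite _)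
    exact (Set.toFinite _).preimage kap.injective.injOn
  refine hfin.subset ?_
  intro x hx
  by_contra hcon
  apply hx
  simp only [mem_union, mem_insert_iff, mem_singleton_iff, mem_preimage, not_or] at hcon
  obtain ⟨⟨h0, h1⟩, h2, h3⟩ := hcon
  have hu : k1 x + v.1 ≠ 0 := by
    intro hu
    have h4 : k1 x = -v.1 := eq_neg_of_add_eq_zero_left hu
    by_cases he : ee x = 0
    · exact h2 (Prod.ext h4 he)
    · exact h3 (Prod.ext h4 (zmod2 _ he))
  have hcont : ContinuousAt (fun y => K (ee x + v.2) (k1 y + v.1)) x := by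
    have a1 : ContinuousAt (fun y => k1 y + v.1) x :=
      (k1_continuousAt h0 h1).add continuousAt_const
    exact (K_continuousAt (ee x + v.2) hu).comp_of_eq a1 rfl
  refine hcont.congr ?_
  filter_upwards [ee_eventually h0 h1] with y hy
  rw [rho_apply, kap_symm_apply, kap_apply, ← hy]
  rfl

theorem rho_mem (v : S × ZMod 2) : rho v ∈ PCSub :=
  ⟨rho_cofin v, by rw [rho_inv]; exact rho_cofin _⟩

end Q78.Stab
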