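import Mathlib

/-! A ping-pong lemma: products of elements of `A` and `B` are in `C` or have infinite support. -/

namespace Q78.Stab

open Set

variable {Ω : Type*}

/-- Alternating words; the two booleans say whether the first and the last letter is in `B`. -/
inductive Word (A B C : Set (Equiv.Perm Ω)) : Bool → Bool → Equiv.Perm Ω → Prop
  | baseA (a : Equiv.Perm Ω) (ha : a ∈ A) (hc : a ∉ C) : Word A B C false false a
  | baseB (b : Equiv.Perm Ω) (hb : b ∈ B) (hc : b ∉ C) : Word A B C true true b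
  | consA (a γ : Equiv.Perm Ω) (j : Bool) (ha : a ∈ A) (hc : a ∉ C) (h : Word A B C true j γ) :
      Word A B C false j (a * γ)
  | consB (b γ : Equiv.Perm Ω) (j : Bool) (hb : b ∈ B) (hc : b ∉ C) (h : Word A B C false j γ) :
      Word A B C true j (b * γ)

/-- Data of the ping-pong lemma. -/
structure PP (A B C : Set (Equiv.Perm Ω)) (P Q : Set Ω) : Prop where
  CA : C ⊆ A
  CB : C ⊆ B
  mulA : ∀ a ∈ A, ∀ a' ∈ A, a * a' ∈ A
  mulB : ∀ b ∈ B, ∀ b' ∈ B, b * b' ∈ B
  mulC : ∀ c ∈ C, ∀ c' ∈ C, c * c' ∈ C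
  invC : ∀ c ∈ C, c⁻¹ ∈ C
  one : (1 : Equiv.Perm Ω) ∈ C
  infP : P.Infinite
  infQ : Q.Infinite
  disj : ∀ x ∈ P, x ∉ Q
  mapA : ∀ a ∈ A, a ∉ C → ∀ x ∈ P, a x ∈ Q
  mapB : ∀ b ∈ B, b ∉ C → ∀ x ∈ Q, b x ∈ P
  splitA : ∀ a ∈ A, a ∉ C → ∃ a' ∈ A, a' ∉ C ∧ a'⁻¹ * a ∈ A ∧ a'⁻¹ * a ∉ C
  splitB : ∀ b ∈ B, b ∉ C → ∃ b' ∈ B, b' ∉ C ∧ b'⁻¹ * b ∈ B ∧ b'⁻¹ * b ∉ C

variable {A B C : Set (Equiv.Perm Ω)} {P Q : Set Ω}

theorem PP.notC (h : PP A B C P Q) {c a : Equiv.Perm Ω} (hc : c ∈ C) (ha : a ∉ C) :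
    c * a ∉ C := by
  intro hca
  apply ha
  have := h.mulC _ (h.invC c hc) _ hca
  rwa [inv_mul_cancel_left] at this

theorem Word.mulC (h : PP A B C P Q) {i j : Bool} {γ c : Equiv.Perm Ω}
    (hγ : Word A B C i j γ) (hc : c ∈ C) : Word A B C i j (c * γ) := by
  cases hγ with
  | baseA a ha hac => exact Word.baseA _ (h.mulA _ (h.CA hc) _ ha) (h.notC hc hac)
  | baseB b hb hbc => exact Word.baseB _ (h.mulB _ (h.CB hc) _ hb) (h.notC hc hbc)
  | consA a γ _ ha hac hw =>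
    rw [← mul_assoc]
    exact Word.consA _ _ _ (h.mulA _ (h.CA hc) _ ha) (h.notC hc hac) hw
  | consB b γ _ hb hbc hw =>
    rw [← mul_assoc]
    exact Word.consB _ _ _ (h.mulB _ (h.CB hc) _ hb) (h.notC hc hbc) hw

/-- in `C` or an alternating word -/
def Red (A B C : Set (Equiv.Perm Ω)) (γ : Equiv.Perm Ω) : Prop :=
  γ ∈ C ∨ ∃ i j, Word A B C i j γ

theorem Red.mulC (h : PP A B C P Q) {γ c : Equiv.Perm Ω} (hγ : Red A B C γ) (hc : c ∈ C) :
    Red A B C (c * γ) := by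
  rcases hγ with hγ | ⟨i, j, hγ⟩
  · exact Or.inl (h.mulC _ hc _ hγ)
  · exact Or.inr ⟨i, j, hγ.mulC h hc⟩

theorem Red.mulA (h : PP A B C P Q) {γ a : Equiv.Perm Ω} (hγ : Red A B C γ) (ha : a ∈ A) :
    Red A B C (a * γ) := by
  by_cases hac : a ∈ C
  · exact hγ.mulC h hac
  rcases hγ with hγ | ⟨i, j, hγ⟩
  · by_cases h1 : a * γ ∈ C
    · exact Or.inl h1
    · exact Or.inr ⟨_, _, Word.baseA _ (h.mulA _ ha _ (h.CA hγ)) h1⟩
  · cases hγ with
    | baseA a' ha' hac' =>
      by_cases h1 : a * γ ∈ C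
      · exact Or.inl h1
      · exact Or.inr ⟨_, _, Word.baseA _ (h.mulA _ ha _ ha') h1⟩
    | baseB b hb hbc => exact Or.inr ⟨_, _, Word.consA _ _ _ ha hac (Word.baseB _ hb hbc)⟩
    | consA a' γ' _ ha' hac' hw =>
      rw [← mul_assoc]
      by_cases h1 : a * a' ∈ C
      · exact Red.mulC h (Or.inr ⟨_, _, hw⟩) h1
      · exact Or.inr ⟨_, _, Word.consA _ _ _ (h.mulA _ ha _ ha') h1 hw⟩
    | consB b γ' _ hb hbc hw =>
      exact Or.inr ⟨_, _, Word.consA _ _ _ ha hac (Word.consB _ _ _ hb hbc hw)⟩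

theorem Red.mulB (h : PP A B C P Q) {γ b : Equiv.Perm Ω} (hγ : Red A B C γ) (hb : b ∈ B) :
    Red A B C (b * γ) := by
  by_cases hbc : b ∈ C
  · exact hγ.mulC h hbc
  rcases hγ with hγ | ⟨i, j, hγ⟩
  · by_cases h1 : b * γ ∈ C
    · exact Or.inl h1
    · exact Or.inr ⟨_, _, Word.baseB _ (h.mulB _ hb _ (h.CB hγ)) h1⟩
  · cases hγ with
    | baseB b' hb' hbc' =>
      by_cases h1 : b * γ ∈ C
      · exact Or.inl h1
      · exact Or.inr ⟨_, _, Word.baseB _ (h.mulB _ hb _ hb') h1⟩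
    | baseA a ha hac => exact Or.inr ⟨_, _, Word.consB _ _ _ hb hbc (Word.baseA _ ha hac)⟩
    | consB b' γ' _ hb' hbc' hw =>
      rw [← mul_assoc]
      by_cases h1 : b * b' ∈ C
      · exact Red.mulC h (Or.inr ⟨_, _, hw⟩) h1
      · exact Or.inr ⟨_, _, Word.consB _ _ _ (h.mulB _ hb _ hb') h1 hw⟩
    | consA a γ' _ ha hac hw =>
      exact Or.inr ⟨_, _, Word.consB _ _ _ hb hbc (Word.consA _ _ _ ha hac hw)⟩

/-- source set of a word with last letter of type `j` -/
def src (P Q : Set Ω) (j : Bool) : Set Ω := if j then Q else P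

/-- target set of a word with first letter of type `i` -/
def tgt (P Q : Set Ω) (i : Bool) : Set Ω := if i then P else Q

theorem Word.maps (h : PP A B C P Q) {i j : Bool} {γ : Equiv.Perm Ω}
    (hγ : Word A B C i j γ) : ∀ x ∈ src P Q j, γ x ∈ tgt P Q i := by
  induction hγ with
  | baseA a ha hac => exact h.mapA a ha hac
  | baseB b hb hbc => exact h.mapB b hb hbc
  | consA a γ j ha hac hw ih =>
    intro x hx
    exact h.mapA a ha hac _ (ih x hx)
  | consB b γ j hb hbc hw ih =>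
    intro x hx
    exact h.mapB b hb hbc _ (ih x hx)

theorem Word.infinite (h : PP A B C P Q) {i j : Bool} {γ : Equiv.Perm Ω}
    (hγ : Word A B C i j γ) : {x | γ x ≠ x}.Infinite := by
  have hmaps := hγ.maps h
  cases hγ with
  | baseA a ha hac =>
    refine h.infP.mono ?_
    intro x hx he
    have := h.mapA _ ha hac x hx
    rw [he] at this
    exact h.disj x hx this
  | baseB b hb hbc =>
    refine h.infQ.mono ?_
    intro x hx he
    have := h.mapB _ hb hbc x hx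
    rw [he] at this
    exact h.disj x this hx
  | consA a γ _ ha hac hw =>
    cases j with
    | false =>
      refine h.infP.mono ?_
      intro x hx he
      have : (a * γ) x ∈ Q := hmaps x hx
      rw [he] at this
      exact h.disj x hx this
    | true =>
      obtain ⟨a', ha', hac', h1, h2⟩ := h.splitA a ha hac
      refine (h.infP.image a'.injective.injOn).mono ?_
      rintro _ ⟨y, hy, rfl⟩ he
      have hyQ : a' y ∈ Q := h.mapA a' ha' hac' y hy
      have h3 : γ (a' y) ∈ P := hw.maps h (a' y) hyQ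
      have h4 : a (γ (a' y)) = a' y := he
      have h5 : (a'⁻¹ * a) (γ (a' y)) = y := by
        rw [Equiv.Perm.mul_apply, h4]; simp
      have h6 := h.mapA _ h1 h2 _ h3
      rw [h5] at h6
      exact h.disj y hy h6
  | consB b γ _ hb hbc hw =>
    cases j with
    | true =>
      refine h.infQ.mono ?_
      intro x hx he
      have : (b * γ) x ∈ P := hmaps x hx
      rw [he] at this
      exact h.disj x this hx
    | false =>
      obtain ⟨b', hb', hbc', h1, h2⟩ := h.splitB b hb hbc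
      refine (h.infQ.image b'.injective.injOn).mono ?_
      rintro _ ⟨y, hy, rfl⟩ he
      have hyP : b' y ∈ P := h.mapB b' hb' hbc' y hy
      have h3 : γ (b' y) ∈ Q := hw.maps h (b' y) hyP
      have h4 : b (γ (b' y)) = b' y := he
      have h5 : (b'⁻¹ * b) (γ (b' y)) = y := by
        rw [Equiv.Perm.mul_apply, h4]; simp
      have h6 := h.mapB _ h1 h2 _ h3
      rw [h5] at h6
      exact h.disj y h6 hy

/-- The ping-pong lemma. -/
theorem PP.main (h : PP A B C P Q) (hAinv : ∀ a ∈ A, a⁻¹ ∈ A) (hBinv : ∀ b ∈ B, b⁻¹ ∈ B)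
    {γ : Equiv.Perm Ω} (hγ : γ ∈ Subgroup.closure (A ∪ B)) :
    γ ∈ C ∨ {x | γ x ≠ x}.Infinite := by
  have hred : Red A B C γ := by
    induction hγ using Subgroup.closure_induction_left with
    | one => exact Or.inl h.one
    | mul_left x hx y _ ih =>
      rcases hx with hx | hx
      · exact ih.mulA h hx
      · exact ih.mulB h hx
    | inv_mul_cancel x hx y _ ih =>
      rcases hx with hx | hx
      · exact ih.mulA h (hAinv x hx)
      · exact ih.mulB h (hBinv x hx)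
  rcases hred with h1 | ⟨i, j, h1⟩
  · exact Or.inl h1
  · exact Or.inr (h1.infinite h)

end Q78.Stab
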