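import Mathlib

/-! A valuation ring of `ℝ` containing `ℚ` but not a given transcendental number. -/

namespace Q78.Stab

theorem exists_val0 : ∃ (V : ValuationSubring ℝ) (τ : ℝ), (∀ q : ℚ, (q : ℝ) ∈ V) ∧ τ ∉ V := by
  obtain ⟨τ, hτ⟩ : ∃ τ : ℝ, Transcendental ℤ τ :=
    ⟨liouvilleNumber (2 : ℕ), transcendental_liouvilleNumber (m := 2) le_rfl⟩
  have hτ' : τ ∉ (integralClosure ℚ ℝ).toSubring := by
    intro h
    have h1 : IsIntegral ℚ τ := h
    apply hτ
    exact (IsFractionRing.isAlgebraic_iff ℤ ℚ ℝ).2 h1.isAlgebraic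
  obtain ⟨V, hV1, hV2⟩ := Subring.exists_le_valuationSubring_of_isIntegrallyClosedIn hτ'
  refine ⟨V, τ, fun q => hV1 ?_, hV2⟩
  show IsIntegral ℚ (q : ℝ)
  exact isIntegral_algebraMap (R := ℚ) (A := ℝ) (x := q)

theorem exists_val : ∃ (V : ValuationSubring ℝ) (τ : ℝ), (∀ q : ℚ, (q : ℝ) ∈ V) ∧
    ∀ m n k : ℤ, (m ≠ 0 ∨ n ≠ 0) → (m : ℝ) * τ + n * τ ^ 2 + k ∉ V := by
  obtain ⟨V, τ, hq, hτ⟩ := exists_val0
  refine ⟨V, τ, hq, ?_⟩
  have hv : 1 < V.valuation τ := by
    rw [← not_le, V.valuation_le_one_iff]; exact hτ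
  have hle : ∀ k : ℤ, V.valuation (k : ℝ) ≤ 1 := by
    intro k
    rw [V.valuation_le_one_iff]
    have := hq (k : ℚ)
    rwa [Rat.cast_intCast] at this
  have hone : ∀ k : ℤ, k ≠ 0 → V.valuation (k : ℝ) = 1 := by
    intro k hk
    apply le_antisymm (hle k)
    have h1 : V.valuation (((k : ℚ)⁻¹ : ℚ) : ℝ) ≤ 1 := by
      rw [V.valuation_le_one_iff]; exact hq _
    have h2 : V.valuation (k : ℝ) * V.valuation (((k : ℚ)⁻¹ : ℚ) : ℝ) = 1 := by
      rw [← map_mul]
      have : (k : ℝ) * (((k : ℚ)⁻¹ : ℚ) : ℝ) = 1 := by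
        push_cast
        have : (k : ℝ) ≠ 0 := by exact_mod_cast hk
        field_simp
      rw [this, map_one]
    by_contra hcon
    have h3 : V.valuation (k : ℝ) < 1 := not_le.1 hcon
    have h4 : V.valuation (k : ℝ) * V.valuation (((k : ℚ)⁻¹ : ℚ) : ℝ) < 1 := by
      calc V.valuation (k : ℝ) * V.valuation (((k : ℚ)⁻¹ : ℚ) : ℝ)
          ≤ V.valuation (k : ℝ) * 1 := mul_le_mul_right h1 _
        _ = V.valuation (k : ℝ) := mul_one _
        _ < 1 := h3
    rw [h2] at h4
    exact lt_irrefl _ h4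
  intro m n k hmn hmem
  rw [← V.valuation_le_one_iff] at hmem
  by_cases hn : n = 0
  · have hm : m ≠ 0 := by
      rcases hmn with h | h
      · exact h
      · exact absurd hn h
    subst hn
    have h1 : V.valuation ((m : ℝ) * τ) = V.valuation τ := by
      rw [map_mul, hone m hm, one_mul]
    have h2 : V.valuation (k : ℝ) < V.valuation ((m : ℝ) * τ) := by
      rw [h1]; exact (hle k).trans_lt hv
    have h3 := Valuation.map_add_eq_of_lt_left V.valuation h2
    simp only [Int.cast_zero, zero_mul, add_zero] at hmem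
    rw [h3, h1] at hmem
    exact absurd hv (not_lt.2 hmem)
  · have h1 : V.valuation ((n : ℝ) * τ ^ 2) = V.valuation τ * V.valuation τ := by
      rw [map_mul, hone n hn, one_mul, map_pow, pow_two]
    have hpos : (0 : _) < V.valuation τ := zero_lt_one.trans hv
    have h2 : V.valuation τ < V.valuation τ * V.valuation τ := by
      calc V.valuation τ = V.valuation τ * 1 := (mul_one _).symm
        _ < V.valuation τ * V.valuation τ := by
            apply mul_lt_mul_of_pos_left hv hpos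
    have h3 : V.valuation ((m : ℝ) * τ) ≤ V.valuation τ := by
      rw [map_mul]
      calc V.valuation (m : ℝ) * V.valuation τ ≤ 1 * V.valuation τ :=
            mul_le_mul_left (hle m) _
        _ = _ := one_mul _
    have h4 : V.valuation ((m : ℝ) * τ) < V.valuation ((n : ℝ) * τ ^ 2) := by
      rw [h1]; exact h3.trans_lt h2
    have h5 := Valuation.map_add_eq_of_lt_right V.valuation h4
    have h6 : V.valuation (k : ℝ) < V.valuation ((m : ℝ) * τ + (n : ℝ) * τ ^ 2) := by
      rw [h5, h1]; exact ((hle k).trans_lt hv).trans h2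
    have h7 := Valuation.map_add_eq_of_lt_left V.valuation h6
    rw [h7, h5, h1] at hmem
    exact absurd (hv.trans h2) (not_lt.2 hmem)

end Q78.Stab
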