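import Pool.Agent.Q78.PCB.Main
import Pool.Agent.Q78.Stab.Kap
import Pool.Agent.Q78.Stab.Val
import Pool.Agent.Q78.Stab.PingPong

namespace Q78.Stab

open Q78.PCB Topology Set Filter

/-- The space `S ⊔ {two points}`. -/
abbrev Om : Type := S ⊕ Bool

/-- translation on the circle -/
def T (c : S) : Equiv.Perm Om := Equiv.sumCongr (tr c) (Equiv.refl Bool)

theorem T_inl (c x : S) : T c (Sum.inl x) = Sum.inl (x + c) := rfl

theorem T_inr (c : S) (b : Bool) : T c (Sum.inr b) = Sum.inr b := rfl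

theorem T_add (c d : S) : T (c + d) = T c * T d := by
  ext x
  rcases x with x | b
  · rw [Equiv.Perm.mul_apply, T_inl, T_inl, T_inl]
    congr 1
    abel
  · rfl

theorem T_zero : T 0 = 1 := by
  ext x
  rcases x with x | b
  · rw [T_inl, add_zero]; rfl
  · rfl

theorem T_inv (c : S) : (T c)⁻¹ = T (-c) := by
  rw [inv_eq_iff_mul_eq_one, ← T_add, add_neg_cancel, T_zero]

theorem T_inj {c : S} (h : T c = 1) : c = 0 := by
  have h1 : T c (Sum.inl 0) = Sum.inl 0 := by rw [h]; rfl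
  rw [T_inl, zero_add] at h1
  exact Sum.inl_injective h1

/-- the permutation matching the two new points with `0` and `1/2` -/
noncomputable def om : Equiv.Perm Om :=
  Equiv.swap (Sum.inl 0) (Sum.inr false) * Equiv.swap (Sum.inl hh) (Sum.inr true)

theorem om_inl_zero : om (Sum.inl 0) = Sum.inr false := by
  have h1 : (Sum.inl 0 : Om) ≠ Sum.inl hh := fun h => hh_ne_zero (Sum.inl_injective h).symm
  unfold om
  rw [Equiv.Perm.mul_apply, Equiv.swap_apply_of_ne_of_ne h1 (by simp), Equiv.swap_apply_left]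

theorem om_inl_hh : om (Sum.inl hh) = Sum.inr true := by
  unfold om
  rw [Equiv.Perm.mul_apply, Equiv.swap_apply_left,
    Equiv.swap_apply_of_ne_of_ne (by simp) (by simp)]

theorem om_inr_false : om (Sum.inr false) = Sum.inl 0 := by
  unfold om
  have a1 : (Sum.inr false : Om) ≠ Sum.inl hh := Sum.inr_ne_inl
  have a2 : (Sum.inr false : Om) ≠ Sum.inr true := fun h => absurd (Sum.inr_injective h) (by decide)
  rw [Equiv.Perm.mul_apply, Equiv.swap_apply_of_ne_of_ne a1 a2,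
    Equiv.swap_apply_right]

theorem om_inr_true : om (Sum.inr true) = Sum.inl hh := by
  have h1 : (Sum.inl hh : Om) ≠ Sum.inl 0 := fun h => hh_ne_zero (Sum.inl_injective h)
  unfold om
  rw [Equiv.Perm.mul_apply, Equiv.swap_apply_right, Equiv.swap_apply_of_ne_of_ne h1 (by simp)]

theorem om_inl {x : S} (h0 : x ≠ 0) (h1 : x ≠ hh) : om (Sum.inl x) = Sum.inl x := by
  have a0 : (Sum.inl x : Om) ≠ Sum.inl 0 := fun h => h0 (Sum.inl_injective h)
  have a1 : (Sum.inl x : Om) ≠ Sum.inl hh := fun h => h1 (Sum.inl_injective h)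
  unfold om
  rw [Equiv.Perm.mul_apply, Equiv.swap_apply_of_ne_of_ne a1 (by simp),
    Equiv.swap_apply_of_ne_of_ne a0 (by simp)]

theorem om_inv_inl {x : S} (h0 : x ≠ 0) (h1 : x ≠ hh) : om⁻¹ (Sum.inl x) = Sum.inl x := by
  rw [Equiv.Perm.inv_eq_iff_eq, om_inl h0 h1]

/-- the second action -/
noncomputable def R (v : S × ZMod 2) : Equiv.Perm Om :=
  om * Equiv.sumCongr (rho v) (Equiv.refl Bool) * om⁻¹

theorem sc_mul (f g : Equiv.Perm S) :
    (Equiv.sumCongr (f * g) (Equiv.refl Bool) : Equiv.Perm Om) =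
      Equiv.sumCongr f (Equiv.refl Bool) * Equiv.sumCongr g (Equiv.refl Bool) := by
  ext x
  rcases x with x | b <;> rfl

theorem R_add (v w : S × ZMod 2) : R (v + w) = R v * R w := by
  unfold R
  rw [rho_add, sc_mul]
  group

theorem R_zero : R 0 = 1 := by
  unfold R
  rw [rho_zero]
  have : (Equiv.sumCongr (1 : Equiv.Perm S) (Equiv.refl Bool) : Equiv.Perm Om) = 1 := by
    ext x
    rcases x with x | b <;> rfl
  rw [this, mul_one, mul_inv_cancel]

theorem R_inv (v : S × ZMod 2) : (R v)⁻¹ = R (-v) := by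
  rw [inv_eq_iff_mul_eq_one, ← R_add, add_neg_cancel, R_zero]

theorem R_inj {v : S × ZMod 2} (h : R v = 1) : v = 0 := by
  have h1 : (Equiv.sumCongr (rho v) (Equiv.refl Bool) : Equiv.Perm Om) = 1 := by
    have : om⁻¹ * R v * om = 1 := by rw [h]; group
    unfold R at this
    rw [← this]; group
  have h2 : (Equiv.sumCongr (rho v) (Equiv.refl Bool) : Equiv.Perm Om) (Sum.inl 0) =
      Sum.inl 0 := by rw [h1]; rfl
  have h3 : rho v 0 = 0 := Sum.inl_injective h2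
  rw [rho_apply, Equiv.symm_apply_eq] at h3
  exact add_eq_left.1 h3

/-- the involution -/
def ct : Equiv.Perm Om := Equiv.sumCongr PCB.refl Equiv.boolNot

theorem ct_inl (x : S) : ct (Sum.inl x) = Sum.inl (-x) := rfl

theorem ct_inr (b : Bool) : ct (Sum.inr b) = Sum.inr (!b) := rfl

theorem rho_c_zero : rho (0, 1) 0 = hh := by
  rw [rho_apply, Equiv.symm_apply_eq, kap_zero, kap_hh, Prod.mk_add_mk, add_zero, zero_add]

theorem rho_c_hh : rho (0, 1) hh = 0 := by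
  have e : (1 : ZMod 2) + 1 = 0 := by decide
  rw [rho_apply, Equiv.symm_apply_eq, kap_zero, kap_hh, Prod.mk_add_mk, add_zero, e]

theorem rho_c {x : S} (h0 : x ≠ 0) (h1 : x ≠ hh) : rho (0, 1) x = -x := by
  rw [rho_apply, Equiv.symm_apply_eq, kap_neg h0 h1]

theorem R_c : R (0, 1) = ct := by
  ext y
  unfold R
  rw [Equiv.Perm.mul_apply, Equiv.Perm.mul_apply]
  rcases y with x | b
  · by_cases h0 : x = 0
    · subst h0
      have e : om⁻¹ (Sum.inl 0) = Sum.inr false := by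
        rw [Equiv.Perm.inv_eq_iff_eq, om_inr_false]
      rw [e, ct_inl, neg_zero]
      exact om_inr_false
    · by_cases h1 : x = hh
      · subst h1
        have e : om⁻¹ (Sum.inl hh) = Sum.inr true := by
          rw [Equiv.Perm.inv_eq_iff_eq, om_inr_true]
        rw [e, ct_inl, neg_hh]
        exact om_inr_true
      · rw [om_inv_inl h0 h1, ct_inl]
        have e : (Equiv.sumCongr (rho (0, 1)) (Equiv.refl Bool) : Equiv.Perm Om) (Sum.inl x) =
            Sum.inl (-x) := congrArg Sum.inl (rho_c h0 h1)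
        rw [e]
        apply om_inl
        · intro h; exact h0 (by simpa using h)
        · intro h
          apply h1
          rw [← neg_neg x, h, neg_hh]
  · cases b with
    | false =>
      have e : om⁻¹ (Sum.inr false) = Sum.inl 0 := by
        rw [Equiv.Perm.inv_eq_iff_eq, om_inl_zero]
      rw [e, ct_inr]
      have e2 : (Equiv.sumCongr (rho (0, 1)) (Equiv.refl Bool) : Equiv.Perm Om) (Sum.inl 0) =
            Sum.inl hh := congrArg Sum.inl rho_c_zero
      rw [e2]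
      exact om_inl_hh
    | true =>
      have e : om⁻¹ (Sum.inr true) = Sum.inl hh := by
        rw [Equiv.Perm.inv_eq_iff_eq, om_inl_hh]
      rw [e, ct_inr]
      have e2 : (Equiv.sumCongr (rho (0, 1)) (Equiv.refl Bool) : Equiv.Perm Om) (Sum.inl hh) =
            Sum.inl 0 := congrArg Sum.inl rho_c_hh
      rw [e2]
      exact om_inl_zero

theorem ct_T (g : S) : ct * T g = T (-g) * ct := by
  ext y
  rw [Equiv.Perm.mul_apply, Equiv.Perm.mul_apply]
  rcases y with x | b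
  · rw [T_inl, ct_inl, ct_inl, T_inl, neg_add]
  · rfl

theorem R_T (e : ZMod 2) (g : S) : ∃ g' : S, (g' = g ∨ g' = -g) ∧ R (0, e) * T g = T g' * R (0, e) := by
  by_cases he : e = 0
  · refine ⟨g, Or.inl rfl, ?_⟩
    have : ((0, e) : S × ZMod 2) = 0 := by rw [he]; rfl
    rw [this, R_zero, one_mul, mul_one]
  · refine ⟨-g, Or.inr rfl, ?_⟩
    rw [zmod2 e he, R_c, ct_T]

/-! ### The valuation -/

variable {V : ValuationSubring ℝ} {τ : ℝ}

/-- points of the circle with representatives in `V` -/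
def VS (V : ValuationSubring ℝ) : Set S := {x | rep x ∈ V}

theorem int_mem (hq : ∀ q : ℚ, (q : ℝ) ∈ V) (k : ℤ) : (k : ℝ) ∈ V := by
  have := hq (k : ℚ)
  rwa [Rat.cast_intCast] at this

theorem coe_mem_VS (hq : ∀ q : ℚ, (q : ℝ) ∈ V) (r : ℝ) : (r : S) ∈ VS V ↔ r ∈ V := by
  have h1 : ((rep (r : S) : ℝ) : S) = (r : S) := coe_rep _
  obtain ⟨n, hn⟩ := (coe_eq_iff _ _).1 h1
  show rep (r : S) ∈ V ↔ r ∈ V
  constructor
  · intro h
    have : r = rep (r : S) - n := by linarith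
    rw [this]
    exact V.sub_mem h (int_mem hq n)
  · intro h
    rw [hn]
    exact V.add_mem _ _ h (int_mem hq n)

/-- The subgroup generated by the two translations. -/
def Lam (τ : ℝ) : AddSubgroup S where
  carrier := {g | ∃ m n : ℤ, g = m • (τ : S) + n • ((τ ^ 2 : ℝ) : S)}
  add_mem' := by
    rintro _ _ ⟨m, n, rfl⟩ ⟨m', n', rfl⟩
    exact ⟨m + m', n + n', by rw [add_smul, add_smul]; abel⟩
  zero_mem' := ⟨0, 0, by simp⟩
  neg_mem' := by
    rintro _ ⟨m, n, rfl⟩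
    exact ⟨-m, -n, by rw [neg_smul, neg_smul, neg_add]⟩

theorem coe_lam (m n : ℤ) :
    m • (τ : S) + n • ((τ ^ 2 : ℝ) : S) = (((m : ℝ) * τ + n * τ ^ 2 : ℝ) : S) := by
  rw [AddCircle.coe_add]
  congr 1
  · rw [← AddCircle.coe_zsmul, zsmul_eq_mul]
  · rw [← AddCircle.coe_zsmul, zsmul_eq_mul]

theorem lam_not_mem (hq : ∀ q : ℚ, (q : ℝ) ∈ V)
    (hτ : ∀ m n k : ℤ, (m ≠ 0 ∨ n ≠ 0) → (m : ℝ) * τ + n * τ ^ 2 + k ∉ V)
    {g : S} (hg : g ∈ Lam τ) (h0 : g ≠ 0) : g ∉ VS V := by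
  obtain ⟨m, n, rfl⟩ := hg
  have hmn : m ≠ 0 ∨ n ≠ 0 := by
    by_contra h
    push Not at h
    apply h0
    rw [h.1, h.2]
    simp
  rw [coe_lam, coe_mem_VS hq]
  have := hτ m n 0 hmn
  rwa [Int.cast_zero, add_zero] at this

theorem VS_neg (hq : ∀ q : ℚ, (q : ℝ) ∈ V) {x : S} (h : x ∈ VS V) : -x ∈ VS V := by
  have h1 : -x = ((-(rep x) : ℝ) : S) := by rw [AddCircle.coe_neg, coe_rep]
  rw [h1, coe_mem_VS hq]
  exact V.neg_mem _ h

theorem VS_add (hq : ∀ q : ℚ, (q : ℝ) ∈ V) {x y : S} (h : x ∈ VS V) (h' : y ∈ VS V) :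
    x + y ∈ VS V := by
  have h1 : x + y = ((rep x + rep y : ℝ) : S) := by rw [AddCircle.coe_add, coe_rep, coe_rep]
  rw [h1, coe_mem_VS hq]
  exact V.add_mem _ _ h h'

theorem VS_add_not (hq : ∀ q : ℚ, (q : ℝ) ∈ V)
    (hτ : ∀ m n k : ℤ, (m ≠ 0 ∨ n ≠ 0) → (m : ℝ) * τ + n * τ ^ 2 + k ∉ V)
    {g : S} (hg : g ∈ Lam τ) (h0 : g ≠ 0) {x : S} (hx : x ∈ VS V) : x + g ∉ VS V := by
  intro h
  apply lam_not_mem hq hτ hg h0
  have : g = (x + g) + -x := by abel
  rw [this]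
  exact VS_add hq h (VS_neg hq hx)

theorem zero_VS (hq : ∀ q : ℚ, (q : ℝ) ∈ V) : (0 : S) ∈ VS V := by
  show rep 0 ∈ V
  rw [rep_zero]
  exact V.zero_mem

theorem hh_VS (hq : ∀ q : ℚ, (q : ℝ) ∈ V) : hh ∈ VS V := by
  show rep hh ∈ V
  rw [rep_hh]
  have := hq (1 / 2)
  push_cast at this
  exact this

/-- a big element: `1/(1+r)`, `r/(1+r)` are in `V` -/
theorem big_plus {r : ℝ} (hr : r ∉ V) : 1 / (1 + r) ∈ V ∧ r / (1 + r) ∈ V := by
  have h1 : 1 + r ∉ V := by
    intro h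
    apply hr
    have : r = (1 + r) - 1 := by ring
    rw [this]
    exact V.sub_mem h V.one_mem
  have h0 : 1 + r ≠ 0 := by
    intro h
    rw [h] at h1
    exact h1 V.zero_mem
  have h2 : (1 + r)⁻¹ ∈ V := by
    rcases V.mem_or_inv_mem (1 + r) with h | h
    · exact absurd h h1
    · exact h
  refine ⟨by rw [one_div]; exact h2, ?_⟩
  have : r / (1 + r) = 1 - (1 + r)⁻¹ := by field_simp; ring
  rw [this]
  exact V.sub_mem V.one_mem h2

theorem big_minus {r : ℝ} (hr : r ∉ V) : r / (1 - r) ∈ V ∧ (1 - r) / r ∈ V := by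
  have hn : -r ∉ V := by
    intro h
    apply hr
    have := V.neg_mem _ h
    rwa [neg_neg] at this
  have h := (big_plus hn).2
  constructor
  · have e : r / (1 - r) = -(-r / (1 + -r)) := by
      rw [neg_div, neg_neg, ← sub_eq_add_neg]
    rw [e]
    exact V.neg_mem _ h
  · have h0 : r ≠ 0 := by
      intro h'
      rw [h'] at hr
      exact hr V.zero_mem
    have h2 : r⁻¹ ∈ V := by
      rcases V.mem_or_inv_mem r with h | h
      · exact absurd h hr
      · exact h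
    have : (1 - r) / r = r⁻¹ - 1 := by field_simp
    rw [this]
    exact V.sub_mem h2 V.one_mem

theorem k1_VS (hq : ∀ q : ℚ, (q : ℝ) ∈ V) {x : S} (hx : x ∉ VS V) : k1 x ∈ VS V := by
  have h := big_minus (V := V) (r := rep x) hx
  unfold k1
  split_ifs
  · rw [coe_mem_VS hq]; exact h.1
  · rw [coe_mem_VS hq]; exact h.2

theorem K_VS (hq : ∀ q : ℚ, (q : ℝ) ∈ V) (e : ZMod 2) {u : S} (hu : u ∉ VS V) :
    K e u ∈ VS V ∧ K e u ≠ 0 ∧ K e u ≠ hh := by
  have h := big_plus (V := V) (r := rep u) hu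
  have hu0 : u ≠ 0 := by
    rintro rfl
    exact hu (zero_VS hq)
  have hk := k1_K e u
  refine ⟨?_, ?_, ?_⟩
  · by_cases he : e = 0
    · rw [he]
      show rep _ ∈ V
      rw [rep_K_zero]
      exact h.2
    · rw [zmod2 e he]
      show rep _ ∈ V
      rw [rep_K_one, if_neg hu0]
      exact h.1
  · intro h0
    rw [h0] at hk
    have := congrArg Prod.fst kap_zero
    rw [kap_apply] at this
    exact hu0 (hk.1.symm.trans this)
  · intro h0
    rw [h0] at hk
    have := congrArg Prod.fst kap_hh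
    rw [kap_apply] at this
    exact hu0 (hk.1.symm.trans this)

theorem R_maps (hq : ∀ q : ℚ, (q : ℝ) ∈ V)
    (hτ : ∀ m n k : ℤ, (m ≠ 0 ∨ n ≠ 0) → (m : ℝ) * τ + n * τ ^ 2 + k ∉ V)
    {g : S} (hg : g ∈ Lam τ) (h0 : g ≠ 0) (e : ZMod 2) {x : S} (hx : x ∉ VS V) :
    ∃ y ∈ VS V, R (g, e) (Sum.inl x) = Sum.inl y := by
  have hx0 : x ≠ 0 := by
    rintro rfl
    exact hx (zero_VS hq)
  have hx1 : x ≠ hh := by
    rintro rfl
    exact hx (hh_VS hq)
  have hu : k1 x + g ∉ VS V := VS_add_not hq hτ hg h0 (k1_VS hq hx)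
  obtain ⟨h1, h2, h3⟩ := K_VS hq (ee x + e) hu
  refine ⟨K (ee x + e) (k1 x + g), h1, ?_⟩
  unfold R
  rw [Equiv.Perm.mul_apply, Equiv.Perm.mul_apply, om_inv_inl hx0 hx1]
  exact om_inl h2 h3

/-! ### The ping-pong data -/

def AA (τ : ℝ) : Set (Equiv.Perm Om) := {F | ∃ g ∈ Lam τ, ∃ e : ZMod 2, F = T g * R (0, e)}
def BBs (τ : ℝ) : Set (Equiv.Perm Om) := {F | ∃ g ∈ Lam τ, ∃ e : ZMod 2, F = R (g, e)}
def CC : Set (Equiv.Perm Om) := {F | ∃ e : ZMod 2, F = R (0, e)}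

theorem AA_zero {g : S} {e : ZMod 2} (h : T g * R (0, e) ∈ CC) : g = 0 := by
  obtain ⟨e', he'⟩ := h
  have h1 : T g = R (0, e' - e) := by
    have : ((0, e' - e) : S × ZMod 2) = (0, e') + -(0, e) := by
      ext <;> simp [sub_eq_add_neg]
    rw [this, R_add, ← he', ← R_inv]
    group
  by_cases he : e' - e = 0
  · rw [he] at h1
    have : ((0, 0) : S × ZMod 2) = 0 := rfl
    rw [this, R_zero] at h1
    exact T_inj h1
  · exfalso
    rw [zmod2 _ he, R_c] at h1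
    have h2 : T g (Sum.inr false) = ct (Sum.inr false) := by rw [h1]
    rw [T_inr, ct_inr] at h2
    have := Sum.inr_injective h2
    exact absurd this (by decide)

theorem BB_zero {g : S} {e : ZMod 2} (h : R (g, e) ∈ CC) : g = 0 := by
  obtain ⟨e', he'⟩ := h
  have h1 : R ((g, e) + -(0, e')) = 1 := by
    rw [R_add, he', ← R_inv, mul_inv_cancel]
  have h2 := R_inj h1
  have h3 := congrArg Prod.fst h2
  simpa using h3

theorem two_ne (hq : ∀ q : ℚ, (q : ℝ) ∈ V)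
    (hτ : ∀ m n k : ℤ, (m ≠ 0 ∨ n ≠ 0) → (m : ℝ) * τ + n * τ ^ 2 + k ∉ V)
    {g : S} (hg : g ∈ Lam τ) (h0 : g ≠ 0) : g + g ≠ 0 := by
  intro h
  obtain ⟨m, n, rfl⟩ := hg
  have hmn : m ≠ 0 ∨ n ≠ 0 := by
    by_contra h
    push Not at h
    apply h0
    rw [h.1, h.2]
    simp
  have h1 : (2 * m) • (τ : S) + (2 * n) • ((τ ^ 2 : ℝ) : S) = 0 := by
    rw [← h, mul_smul, mul_smul, two_smul, two_smul]; abel
  rw [coe_lam] at h1
  have h2 : ((((2 * m : ℤ) : ℝ) * τ + ((2 * n : ℤ) : ℝ) * τ ^ 2 : ℝ) : S) ∈ VS V := by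
    rw [h1]; exact zero_VS hq
  rw [coe_mem_VS hq] at h2
  have := hτ (2 * m) (2 * n) 0 (by omega)
  rw [Int.cast_zero, add_zero] at this
  exact this h2

theorem pp (hq : ∀ q : ℚ, (q : ℝ) ∈ V)
    (hτ : ∀ m n k : ℤ, (m ≠ 0 ∨ n ≠ 0) → (m : ℝ) * τ + n * τ ^ 2 + k ∉ V) :
    PP (AA τ) (BBs τ) CC (Sum.inl '' VS V) (Sum.inl '' (VS V)ᶜ) where
  CA := by
    rintro _ ⟨e, rfl⟩
    exact ⟨0, (Lam τ).zero_mem, e, by rw [T_zero, one_mul]⟩
  CB := by
    rintro _ ⟨e, rfl⟩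
    exact ⟨0, (Lam τ).zero_mem, e, rfl⟩
  mulA := by
    rintro _ ⟨g, hg, e, rfl⟩ _ ⟨g', hg', e', rfl⟩
    obtain ⟨g'', h1, h2⟩ := R_T e g'
    have hg'' : g'' ∈ Lam τ := by
      rcases h1 with rfl | rfl
      · exact hg'
      · exact (Lam τ).neg_mem hg'
    refine ⟨g + g'', (Lam τ).add_mem hg hg'', e + e', ?_⟩
    have : ((0, e + e') : S × ZMod 2) = (0, e) + (0, e') := by ext <;> simp
    rw [this, R_add, T_add]
    calc T g * R (0, e) * (T g' * R (0, e')) = T g * (R (0, e) * T g') * R (0, e') := by group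
      _ = T g * T g'' * (R (0, e) * R (0, e')) := by rw [h2]; group
  mulB := by
    rintro _ ⟨g, hg, e, rfl⟩ _ ⟨g', hg', e', rfl⟩
    exact ⟨g + g', (Lam τ).add_mem hg hg', e + e', by rw [← R_add]; rfl⟩
  mulC := by
    rintro _ ⟨e, rfl⟩ _ ⟨e', rfl⟩
    exact ⟨e + e', by rw [← R_add, Prod.mk_add_mk, add_zero]⟩
  invC := by
    rintro _ ⟨e, rfl⟩
    exact ⟨-e, by rw [R_inv, Prod.neg_mk, neg_zero]⟩
  one := ⟨0, R_zero.symm⟩
  infP := by
    refine Set.Infinite.image Sum.inl_injective.injOn ?_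
    have hinj : Function.Injective (fun n : ℕ => (((1 / (n + 2) : ℚ) : ℝ) : S)) := by
      intro n m hnm
      have e1 : ∀ k : ℕ, rep (((1 / (k + 2) : ℚ) : ℝ) : S) = ((1 / (k + 2) : ℚ) : ℝ) := by
        intro k
        apply rep_coe
        · positivity
        · push_cast
          rw [div_lt_one (by positivity)]
          have : (0 : ℝ) ≤ k := Nat.cast_nonneg k
          linarith
      have h1 := congrArg rep hnm
      simp only at h1
      rw [e1, e1] at h1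
      push_cast at h1
      have h2 : ((n : ℝ) + 2) = m + 2 := by
        have := congrArg (fun z : ℝ => 1 / z) h1
        simpa using this
      have h3 : (n : ℝ) = m := by linarith
      exact_mod_cast h3
    refine (Set.infinite_range_of_injective hinj).mono ?_
    rintro _ ⟨n, rfl⟩
    show (((1 / (n + 2) : ℚ) : ℝ) : S) ∈ VS V
    rw [coe_mem_VS hq]
    exact hq _
  infQ := by
    refine Set.Infinite.image Sum.inl_injective.injOn ?_
    have hinj : Function.Injective (fun n : ℕ => ((((n + 1 : ℕ) : ℤ) * τ : ℝ) : S)) := by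
      intro n m hnm
      by_contra hne
      obtain ⟨k, hk⟩ := (coe_eq_iff _ _).1 hnm
      apply hτ ((n : ℤ) - m) 0 (-k) (Or.inl (by omega))
      have : (((n : ℤ) - m : ℤ) : ℝ) * τ + ((0 : ℤ) : ℝ) * τ ^ 2 + ((-k : ℤ) : ℝ) = 0 := by
        push_cast at hk ⊢
        linarith
      rw [this]
      exact V.zero_mem
    refine (Set.infinite_range_of_injective hinj).mono ?_
    rintro _ ⟨n, rfl⟩
    show ((((n + 1 : ℕ) : ℤ) * τ : ℝ) : S) ∉ VS V
    rw [coe_mem_VS hq]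
    have := hτ ((n + 1 : ℕ) : ℤ) 0 0 (Or.inl (by omega))
    rwa [Int.cast_zero, add_zero, zero_mul, add_zero] at this
  disj := by
    rintro _ ⟨x, hx, rfl⟩ ⟨y, hy, hxy⟩
    rw [Sum.inl_injective hxy] at hy
    exact hy hx
  mapA := by
    rintro _ ⟨g, hg, e, rfl⟩ hc _ ⟨x, hx, rfl⟩
    have h0 : g ≠ 0 := by
      rintro rfl
      exact hc ⟨e, by rw [T_zero, one_mul]⟩
    have h1 : ∃ y ∈ VS V, R (0, e) (Sum.inl x) = Sum.inl y := by
      by_cases he : e = 0
      · refine ⟨x, hx, ?_⟩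
        have : ((0, e) : S × ZMod 2) = 0 := by rw [he]; rfl
        rw [this, R_zero]
        rfl
      · refine ⟨-x, VS_neg hq hx, ?_⟩
        rw [zmod2 e he, R_c, ct_inl]
    obtain ⟨y, hy, hxy⟩ := h1
    rw [Equiv.Perm.mul_apply, hxy, T_inl]
    exact ⟨y + g, VS_add_not hq hτ hg h0 hy, rfl⟩
  mapB := by
    rintro _ ⟨g, hg, e, rfl⟩ hc _ ⟨x, hx, rfl⟩
    have h0 : g ≠ 0 := by
      rintro rfl
      exact hc ⟨e, rfl⟩
    obtain ⟨y, hy, hxy⟩ := R_maps hq hτ hg h0 e hx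
    rw [hxy]
    exact ⟨y, hy, rfl⟩
  splitA := by
    rintro _ ⟨g, hg, e, rfl⟩ hc
    have h0 : g ≠ 0 := by
      rintro rfl
      exact hc ⟨e, by rw [T_zero, one_mul]⟩
    have e0 : R (0, 0) = 1 := R_zero
    have e1 : (T (g + g))⁻¹ * (T g * R (0, e)) = T (-g) * R (0, e) := by
      rw [T_inv, ← mul_assoc, ← T_add]
      congr 2
      abel
    refine ⟨T (g + g), ⟨g + g, (Lam τ).add_mem hg hg, 0, by rw [e0, mul_one]⟩, ?_, ?_, ?_⟩
    · intro h
      apply two_ne hq hτ hg h0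
      apply AA_zero (e := 0)
      rw [e0, mul_one]
      exact h
    · rw [e1]
      exact ⟨-g, (Lam τ).neg_mem hg, e, rfl⟩
    · rw [e1]
      intro h
      apply h0
      rw [← neg_eq_zero]
      exact AA_zero h
  splitB := by
    rintro _ ⟨g, hg, e, rfl⟩ hc
    have h0 : g ≠ 0 := by
      rintro rfl
      exact hc ⟨e, rfl⟩
    have e1 : (R (g + g, 0))⁻¹ * R (g, e) = R (-g, e) := by
      rw [R_inv, ← R_add]
      congr 1
      ext
      · show -(g + g) + g = -g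
        abel
      · show -0 + e = e
        simp
    refine ⟨R (g + g, 0), ⟨g + g, (Lam τ).add_mem hg hg, 0, rfl⟩, ?_, ?_, ?_⟩
    · intro h
      exact two_ne hq hτ hg h0 (BB_zero h)
    · rw [e1]
      exact ⟨-g, (Lam τ).neg_mem hg, e, rfl⟩
    · rw [e1]
      intro h
      apply h0
      rw [← neg_eq_zero]
      exact BB_zero h

theorem AA_inv : ∀ a ∈ AA τ, a⁻¹ ∈ AA τ := by
  rintro _ ⟨g, hg, e, rfl⟩
  have e0 : R (0, -e) = (R (0, e))⁻¹ := by rw [R_inv, Prod.neg_mk, neg_zero]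
  obtain ⟨g', h1, h2⟩ := R_T (-e) (-g)
  have hg' : g' ∈ Lam τ := by
    rcases h1 with rfl | rfl
    · exact (Lam τ).neg_mem hg
    · rw [neg_neg]; exact hg
  refine ⟨g', hg', -e, ?_⟩
  rw [mul_inv_rev, T_inv, ← e0, h2]

theorem BB_inv : ∀ b ∈ BBs τ, b⁻¹ ∈ BBs τ := by
  rintro _ ⟨g, hg, e, rfl⟩
  exact ⟨-g, (Lam τ).neg_mem hg, -e, by rw [R_inv, Prod.neg_mk]⟩

end Q78.Stab
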