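import Pool.Agent.Q78.Stab.Action

/-! A stably realizable, non-realizable group. -/

namespace Q78.Stab

open Q78.PCB Topology Set Filter

/-- `F` is a lift of `f` -/
def IsLift (F : Equiv.Perm Om) (f : PC) : Prop := {x : S | F (Sum.inl x) ≠ Sum.inl (perm f x)}.Finite

theorem IsLift.mul {F F' : Equiv.Perm Om} {f f' : PC} (h : IsLift F f) (h' : IsLift F' f') :
    IsLift (F * F') (f * f') := by
  refine (h'.union (h.preimage (perm f').injective.injOn)).subset ?_
  intro x hx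
  by_contra hcon
  simp only [Set.mem_union, Set.mem_preimage, Set.mem_ofPred_eq, not_or, not_not] at hcon
  apply hx
  rw [Equiv.Perm.mul_apply, hcon.1, hcon.2]
  rfl

theorem IsLift.inv {F : Equiv.Perm Om} {f : PC} (h : IsLift F f) : IsLift F⁻¹ f⁻¹ := by
  refine (h.image (perm f)).subset ?_
  intro x hx
  refine ⟨(perm f)⁻¹ x, ?_, self_inv' _ _⟩
  intro hcon
  apply hx
  rw [Equiv.Perm.inv_eq_iff_eq]
  have : perm f⁻¹ x = (perm f)⁻¹ x := rfl
  rw [this, hcon, self_inv']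

theorem IsLift.one : IsLift 1 1 := by
  have : {x : S | (1 : Equiv.Perm Om) (Sum.inl x) ≠ Sum.inl (perm 1 x)} = ∅ := by
    ext x
    simp only [Set.mem_ofPred_eq, Set.mem_empty_iff_false, iff_false, not_not]
    rfl
  unfold IsLift
  rw [this]
  exact Set.finite_empty

/-- the third kind of generators -/
noncomputable def grho (v : S × ZMod 2) : PC := ⟨rho v, rho_mem v⟩

theorem isLift_T (c : S) : IsLift (T c) (gtr c) := by
  have : {x : S | T c (Sum.inl x) ≠ Sum.inl (perm (gtr c) x)} = ∅ := by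
    ext x
    simp only [Set.mem_ofPred_eq, Set.mem_empty_iff_false, iff_false, not_not]
    rfl
  unfold IsLift
  rw [this]
  exact Set.finite_empty

theorem isLift_ct : IsLift ct grefl := by
  have : {x : S | ct (Sum.inl x) ≠ Sum.inl (perm grefl x)} = ∅ := by
    ext x
    simp only [Set.mem_ofPred_eq, Set.mem_empty_iff_false, iff_false, not_not]
    rfl
  unfold IsLift
  rw [this]
  exact Set.finite_empty

theorem isLift_R (v : S × ZMod 2) : IsLift (R v) (grho v) := by
  have hfin : ({0, hh} : Set S).Finite := Set.toFinite _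
  refine (hfin.union (hfin.preimage (rho v).injective.injOn)).subset ?_
  intro x hx
  by_contra hcon
  simp only [Set.mem_union, Set.mem_preimage, Set.mem_insert_iff, Set.mem_singleton_iff,
    not_or] at hcon
  apply hx
  unfold R
  rw [Equiv.Perm.mul_apply, Equiv.Perm.mul_apply, om_inv_inl hcon.1.1 hcon.1.2]
  exact om_inl hcon.2.1 hcon.2.2

/-- generators -/
noncomputable def gens (τ : ℝ) : Set PC :=
  {gtr (τ : S), gtr ((τ ^ 2 : ℝ) : S), grefl, grho ((τ : S), 0), grho (((τ ^ 2 : ℝ) : S), 0)}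

/-- the group upstairs -/
noncomputable def Gup (τ : ℝ) : Subgroup PC := Subgroup.closure (gens τ)

/-- the group -/
noncomputable def Gam (τ : ℝ) : Subgroup PCBow := (Gup τ).map proj

/-- generators of the lift -/
noncomputable def gensT (τ : ℝ) : Set (Equiv.Perm Om) :=
  {T (τ : S), T ((τ ^ 2 : ℝ) : S), ct, R ((τ : S), 0), R (((τ ^ 2 : ℝ) : S), 0)}

/-- the lift -/
noncomputable def Lt (τ : ℝ) : Subgroup (Equiv.Perm Om) := Subgroup.closure (gensT τ)

theorem Gam_fg (τ : ℝ) : (Gam τ).FG := by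
  have hfin : (gens τ).Finite := by
    unfold gens
    exact Set.toFinite _
  have hfin2 : (proj '' gens τ).Finite := hfin.image _
  refine ⟨hfin2.toFinset, ?_⟩
  rw [hfin2.coe_toFinset]
  exact (proj.map_closure (gens τ)).symm

theorem lift_of_Lt (τ : ℝ) : ∀ F ∈ Lt τ, ∃ f ∈ Gup τ, IsLift F f := by
  intro F hF
  induction hF using Subgroup.closure_induction with
  | mem x hx =>
    rcases hx with rfl | rfl | rfl | rfl | rfl
    · exact ⟨_, Subgroup.subset_closure (by simp [gens]), isLift_T _⟩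
    · exact ⟨_, Subgroup.subset_closure (by simp [gens]), isLift_T _⟩
    · exact ⟨_, Subgroup.subset_closure (by simp [gens]), isLift_ct⟩
    · exact ⟨_, Subgroup.subset_closure (by simp [gens]), isLift_R _⟩
    · exact ⟨_, Subgroup.subset_closure (by simp [gens]), isLift_R _⟩
  | one => exact ⟨1, (Gup τ).one_mem, IsLift.one⟩
  | mul x y _ _ h1 h2 =>
    obtain ⟨f, hf, h1⟩ := h1
    obtain ⟨g, hg, h2⟩ := h2
    exact ⟨f * g, (Gup τ).mul_mem hf hg, h1.mul h2⟩
  | inv x _ h =>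
    obtain ⟨f, hf, h⟩ := h
    exact ⟨f⁻¹, (Gup τ).inv_mem hf, h.inv⟩

theorem lift_of_Gup (τ : ℝ) : ∀ f ∈ Gup τ, ∃ F ∈ Lt τ, IsLift F f := by
  intro f hf
  induction hf using Subgroup.closure_induction with
  | mem x hx =>
    rcases hx with rfl | rfl | rfl | rfl | rfl
    · exact ⟨_, Subgroup.subset_closure (by simp [gensT]), isLift_T _⟩
    · exact ⟨_, Subgroup.subset_closure (by simp [gensT]), isLift_T _⟩
    · exact ⟨_, Subgroup.subset_closure (by simp [gensT]), isLift_ct⟩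
    · exact ⟨_, Subgroup.subset_closure (by simp [gensT]), isLift_R _⟩
    · exact ⟨_, Subgroup.subset_closure (by simp [gensT]), isLift_R _⟩
  | one => exact ⟨1, (Lt τ).one_mem, IsLift.one⟩
  | mul x y _ _ h1 h2 =>
    obtain ⟨f, hf, h1⟩ := h1
    obtain ⟨g, hg, h2⟩ := h2
    exact ⟨f * g, (Lt τ).mul_mem hf hg, h1.mul h2⟩
  | inv x _ h =>
    obtain ⟨f, hf, h⟩ := h
    exact ⟨f⁻¹, (Lt τ).inv_mem hf, h.inv⟩

theorem Lt_le (τ : ℝ) : Lt τ ≤ Subgroup.closure (AA τ ∪ BBs τ) := by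
  unfold Lt
  rw [Subgroup.closure_le]
  have m1 : (τ : S) ∈ Lam τ := ⟨1, 0, by simp⟩
  have m2 : ((τ ^ 2 : ℝ) : S) ∈ Lam τ := ⟨0, 1, by rw [zero_smul, one_smul, zero_add]⟩
  have e0 : R (0, 0) = 1 := R_zero
  rintro x (rfl | rfl | rfl | rfl | rfl)
  · exact Subgroup.subset_closure (Or.inl ⟨_, m1, 0, by rw [e0, mul_one]⟩)
  · exact Subgroup.subset_closure (Or.inl ⟨_, m2, 0, by rw [e0, mul_one]⟩)
  · exact Subgroup.subset_closure (Or.inr ⟨0, (Lam τ).zero_mem, 1, R_c.symm⟩)
  · exact Subgroup.subset_closure (Or.inr ⟨_, m1, 0, rfl⟩)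
  · exact Subgroup.subset_closure (Or.inr ⟨_, m2, 0, rfl⟩)

theorem ct_support : {x : Om | ct x ≠ x}.Infinite := by
  have hinj : Function.Injective (fun n : ℕ => ((1 / (n + 3) : ℝ) : S)) := by
    intro n m hnm
    have e1 : ∀ k : ℕ, rep ((1 / (k + 3) : ℝ) : S) = (1 / (k + 3) : ℝ) := by
      intro k
      apply rep_coe
      · positivity
      · rw [div_lt_one (by positivity)]
        have : (0 : ℝ) ≤ k := Nat.cast_nonneg k
        linarith
    have h1 := congrArg rep hnm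
    simp only at h1
    rw [e1, e1] at h1
    have h2 : ((n : ℝ) + 3) = m + 3 := by
      have := congrArg (fun z : ℝ => 1 / z) h1
      simpa using this
    have h3 : (n : ℝ) = m := by linarith
    exact_mod_cast h3
  refine ((Set.infinite_range_of_injective hinj).image Sum.inl_injective.injOn).mono ?_
  rintro _ ⟨_, ⟨n, rfl⟩, rfl⟩
  show ct (Sum.inl _) ≠ _
  rw [ct_inl]
  intro h
  have h1 : -((1 / (n + 3) : ℝ) : S) = ((1 / (n + 3) : ℝ) : S) := Sum.inl_injective h
  rw [← AddCircle.coe_neg] at h1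
  obtain ⟨k, hk⟩ := (coe_eq_iff _ _).1 h1
  have hn : (0 : ℝ) ≤ n := Nat.cast_nonneg n
  have h2 : (0 : ℝ) < 1 / (n + 3) := by positivity
  have h3 : (1 : ℝ) / (n + 3) ≤ 1 / 3 := by
    apply one_div_le_one_div_of_le (by norm_num)
    linarith
  have h4 : (k : ℝ) = -(2 * (1 / (n + 3))) := by linarith
  have h5 : (-1 : ℝ) < k := by rw [h4]; linarith
  have h6 : (k : ℝ) < 0 := by rw [h4]; linarith
  have h7 : (-1 : ℤ) < k := by exact_mod_cast h5
  have h8 : k < (0 : ℤ) := by exact_mod_cast h6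
  omega

variable {V : ValuationSubring ℝ} {τ : ℝ}

theorem ker_trivial (hq : ∀ q : ℚ, (q : ℝ) ∈ V)
    (hτ : ∀ m n k : ℤ, (m ≠ 0 ∨ n ≠ 0) → (m : ℝ) * τ + n * τ ^ 2 + k ∉ V)
    {F : Equiv.Perm Om} (hF : F ∈ Lt τ) (hfin : {x | F x ≠ x}.Finite) : F = 1 := by
  rcases (pp hq hτ).main AA_inv BB_inv (Lt_le τ hF) with ⟨e, rfl⟩ | h
  · by_cases he : e = 0
    · rw [he]; exact R_zero
    · exfalso
      rw [zmod2 e he, R_c] at hfin
      exact ct_support hfin
  · exact absurd hfin h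

theorem pX_eq {F : Equiv.Perm Om} {f : PC} (h : IsLift F f) : pX Bool F = proj f := by
  have hex : ∃ f : PC, {x : S | F (Sum.inl x) ≠ Sum.inl (perm f x)}.Finite := ⟨f, h⟩
  unfold pX
  rw [dif_pos hex]
  apply proj_of_near
  have h2 := hex.choose_spec
  refine (h.union h2).subset ?_
  intro x hx
  by_contra hcon
  simp only [Set.mem_union, Set.mem_ofPred_eq, not_or, not_not] at hcon
  apply hx
  exact Sum.inl_injective (hcon.2.symm.trans hcon.1)

theorem stably (hq : ∀ q : ℚ, (q : ℝ) ∈ V)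
    (hτ : ∀ m n k : ℤ, (m ≠ 0 ∨ n ≠ 0) → (m : ℝ) * τ + n * τ ^ 2 + k ∉ V) :
    StablyRealizable (Gam τ) := by
  refine ⟨Bool, Lt τ, ?_, ?_, ?_, ?_⟩
  · intro F hF
    obtain ⟨f, _, h⟩ := lift_of_Lt τ F hF
    exact ⟨Set.toFinite _, f, h⟩
  · intro F hF
    obtain ⟨f, hf, h⟩ := lift_of_Lt τ F hF
    rw [pX_eq h]
    exact ⟨f, hf, rfl⟩
  · intro F hF F' hF' heq
    obtain ⟨f, hf, h⟩ := lift_of_Lt τ F hF
    obtain ⟨f', hf', h'⟩ := lift_of_Lt τ F' hF'
    rw [pX_eq h, pX_eq h'] at heq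
    have hnear := near_of_proj heq
    have hl : IsLift (F⁻¹ * F') (f⁻¹ * f') := h.inv.mul h'
    have hfin : {x : S | (F⁻¹ * F') (Sum.inl x) ≠ Sum.inl x}.Finite := by
      refine (hl.union hnear).subset ?_
      intro x hx
      by_contra hcon
      simp only [Set.mem_union, Set.mem_ofPred_eq, not_or, not_not] at hcon
      apply hx
      rw [hcon.1]
      have : perm (f⁻¹ * f') x = (perm f)⁻¹ (perm f' x) := rfl
      rw [this, ← hcon.2, inv_self']
    have hfin2 : {x : Om | (F⁻¹ * F') x ≠ x}.Finite := by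
      refine ((hfin.image Sum.inl).union (Set.toFinite (Sum.inr '' (univ : Set Bool)))).subset ?_
      rintro (x | b) hx
      · exact Or.inl ⟨x, hx, rfl⟩
      · exact Or.inr ⟨b, mem_univ _, rfl⟩
    have h1 := ker_trivial hq hτ ((Lt τ).mul_mem ((Lt τ).inv_mem hF) hF') hfin2
    rwa [inv_mul_eq_one] at h1
  · rintro _ ⟨f, hf, rfl⟩
    obtain ⟨F, hF, h⟩ := lift_of_Gup τ f hf
    exact ⟨F, hF, pX_eq h⟩

/-! ### Not realizable -/

theorem eq_near' {G : Type*} [AddCommGroup G] {α : G} (hα : ∀ n : ℤ, n • α = 0 → n = 0)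
    (f f0 u : G → G) (hu : Function.Injective u) (h1 : ∀ x, f (x + α) = u (f x))
    (h2 : ∀ x, f0 (x + α) = u (f0 x))
    (hfin : {x | f x ≠ f0 x}.Finite) (x : G) : f x = f0 x := by
  have hit : ∀ (g : G → G), (∀ x, g (x + α) = u (g x)) → ∀ n : ℕ, g (x + n • α) = u^[n] (g x) := by
    intro g hg n
    induction n with
    | zero => simp
    | succ n ih =>
      rw [succ_nsmul, ← add_assoc, hg, ih, Function.iterate_succ_apply']
  have hinj : Function.Injective fun n : ℕ => x + n • α := by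
    intro n m hnm
    have h3 : n • α = m • α := add_left_cancel hnm
    have h4 : ((n : ℤ) - m) • α = 0 := by
      rw [sub_smul, natCast_zsmul, natCast_zsmul, h3, sub_self]
    have := hα _ h4
    omega
  obtain ⟨n, hn⟩ : ∃ n : ℕ, x + n • α ∉ {x | f x ≠ f0 x} := by
    by_contra hcon
    push Not at hcon
    have : (Set.range fun n : ℕ => x + n • α).Finite := hfin.subset (by
      rintro _ ⟨n, rfl⟩
      exact hcon n)
    exact (Set.infinite_range_of_injective hinj) this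
  have heq : f (x + n • α) = f0 (x + n • α) := by
    by_contra h
    exact hn h
  rw [hit f h1, hit f0 h2] at heq
  exact hu.iterate n heq

/-- The consequence of rigidity: a permutation commuting, or anticommuting, is exactly conjugate
to the model. -/
theorem conj_exact {G : Type*} [AddCommGroup G] (α β : G)
    (hind : ∀ m n : ℤ, m • α + n • β = 0 → m = 0 ∧ n = 0)
    (a b c : Equiv.Perm G) (hab : a * b = b * a) (ha : {x | a x ≠ x + α}.Finite)
    (hb : {x | b x ≠ x + β}.Finite) (c0 : G → G) (hc : {x | c x ≠ c0 x}.Finite)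
    (ε : ℤ) (hε : c * a = a ^ ε * c) (hc0 : ∀ x, c0 (x + α) = c0 x + ε • α) :
    ∃ Θ : Equiv.Perm G, ∀ x, c (Θ x) = Θ (c0 x) := by
  obtain ⟨Θ, hΘ, hΘa⟩ := rigid α β hind a b hab ha hb
  refine ⟨Θ, ?_⟩
  have hα : ∀ n : ℤ, n • α = 0 → n = 0 := by
    intro n hn
    exact (hind n 0 (by rw [hn, zero_smul, add_zero])).1
  have hΘinv : {x | Θ⁻¹ x ≠ x}.Finite := by
    refine hΘ.subset ?_
    intro x hx hcon
    apply hx
    rw [Equiv.Perm.inv_eq_iff_eq]
    exact hcon.symm
  have hnear : {x | (Θ⁻¹ * c * Θ) x ≠ c0 x}.Finite := by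
    refine ((hΘ.union hc).union (hΘinv.preimage c.injective.injOn)).subset ?_
    intro x hx
    by_contra hcon
    simp only [Set.mem_union, Set.mem_preimage, Set.mem_ofPred_eq, not_or, not_not] at hcon
    apply hx
    show Θ⁻¹ (c (Θ x)) = c0 x
    rw [hcon.1.1, hcon.2, hcon.1.2]
  have hpow : ∀ (n : ℤ) (x : G), (a ^ n) (Θ x) = Θ (x + n • α) := by
    have h1 : ∀ (n : ℕ) (x : G), (a ^ n) (Θ x) = Θ (x + n • α) := by
      intro n
      induction n with
      | zero => intro x; simp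
      | succ n ih =>
        intro x
        rw [pow_succ, Equiv.Perm.mul_apply, ← hΘa, ih, succ_nsmul]
        congr 1
        abel
    intro n x
    rcases Int.eq_nat_or_neg n with ⟨k, rfl | rfl⟩
    · rw [zpow_natCast, h1, natCast_zsmul]
    · rw [zpow_neg, zpow_natCast, Equiv.Perm.inv_eq_iff_eq, h1, neg_smul, natCast_zsmul,
        neg_add_cancel_right]
  have key : ∀ x, (Θ⁻¹ * c * Θ) x = c0 x := by
    intro x
    refine eq_near' hα (Θ⁻¹ * c * Θ : Equiv.Perm G) c0 (fun y => y + ε • α)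
      (add_left_injective _) ?_ hc0 hnear x
    intro x
    show Θ⁻¹ (c (Θ (x + α))) = Θ⁻¹ (c (Θ x)) + ε • α
    have h1 : c (a (Θ x)) = (a ^ ε) (c (Θ x)) := congrArg (fun g : Equiv.Perm G => g (Θ x)) hε
    rw [hΘa, h1, Equiv.Perm.inv_eq_iff_eq, ← hpow, self_inv']
  intro x
  have h1 : Θ⁻¹ (c (Θ x)) = c0 x := key x
  rw [← h1, self_inv']

theorem ind_S (hτ : ∀ m n k : ℤ, (m ≠ 0 ∨ n ≠ 0) → (m : ℝ) * τ + n * τ ^ 2 + k ∉ V) (m n : ℤ)
    (h : m • (τ : S) + n • ((τ ^ 2 : ℝ) : S) = 0) : m = 0 ∧ n = 0 := by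
  rw [coe_lam] at h
  have h' : (((m : ℝ) * τ + n * τ ^ 2 : ℝ) : S) = ((0 : ℝ) : S) := h
  obtain ⟨k, hk⟩ := (coe_eq_iff _ _).1 h'
  by_contra hcon
  have hmn : m ≠ 0 ∨ n ≠ 0 := by
    by_contra h2
    push Not at h2
    exact hcon h2
  apply hτ m n (-k) hmn
  have : (m : ℝ) * τ + n * τ ^ 2 + ((-k : ℤ) : ℝ) = 0 := by
    push_cast
    linarith
  rw [this]
  exact V.zero_mem

theorem near_refl_rho : {x | perm grefl x ≠ perm (grho (0, 1)) x}.Finite := by
  have hfin : ({0, hh} : Set S).Finite := Set.toFinite _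
  refine hfin.subset ?_
  intro x hx
  by_contra hcon
  simp only [Set.mem_insert_iff, Set.mem_singleton_iff, not_or] at hcon
  apply hx
  show -x = rho (0, 1) x
  rw [rho_c hcon.1 hcon.2]

theorem not_realizable (hτ : ∀ m n k : ℤ, (m ≠ 0 ∨ n ≠ 0) → (m : ℝ) * τ + n * τ ^ 2 + k ∉ V) :
    ¬ Realizable (Gam τ) := by
  rintro ⟨Λ, hΛ⟩
  have hlift : ∀ g ∈ gens τ, ∃ f ∈ Λ, proj f = proj g := by
    intro g hg
    have : proj g ∈ (Gam τ : Set PCBow) := ⟨g, Subgroup.subset_closure hg, rfl⟩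
    exact hΛ.surjOn this
  obtain ⟨a, haΛ, ha⟩ := hlift (gtr (τ : S)) (by simp [gens])
  obtain ⟨b, hbΛ, hb⟩ := hlift (gtr ((τ ^ 2 : ℝ) : S)) (by simp [gens])
  obtain ⟨c, hcΛ, hc⟩ := hlift grefl (by simp [gens])
  obtain ⟨a', haΛ', ha'⟩ := hlift (grho ((τ : S), 0)) (by simp [gens])
  obtain ⟨b', hbΛ', hb'⟩ := hlift (grho (((τ ^ 2 : ℝ) : S), 0)) (by simp [gens])
  have hinj : ∀ f ∈ Λ, ∀ g ∈ Λ, proj f = proj g → perm f = perm g := by
    intro f hf g hg h
    rw [hΛ.injOn hf hg h]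
  have pm : ∀ f g : PC, perm (f * g) = perm f * perm g := fun _ _ => rfl
  have pi : ∀ f : PC, perm f⁻¹ = (perm f)⁻¹ := fun _ => rfl
  have pext : ∀ f g : PC, perm f = perm g → f = g := fun f g h => Subtype.ext h
  -- relations
  have r1 : perm a * perm b = perm b * perm a := by
    rw [← pm, ← pm]
    refine hinj _ (Λ.mul_mem haΛ hbΛ) _ (Λ.mul_mem hbΛ haΛ) ?_
    have key : gtr (τ : S) * gtr ((τ ^ 2 : ℝ) : S) = gtr ((τ ^ 2 : ℝ) : S) * gtr (τ : S) := by
      apply pext
      show tr _ * tr _ = tr _ * tr _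
      rw [tr_mul, tr_mul, add_comm]
    have key' := congrArg proj key
    simp only [map_mul] at key' ⊢
    rw [ha, hb]
    exact key'
  have r2 : perm c * perm a = (perm a)⁻¹ * perm c := by
    rw [← pm, ← pi, ← pm]
    refine hinj _ (Λ.mul_mem hcΛ haΛ) _ (Λ.mul_mem (Λ.inv_mem haΛ) hcΛ) ?_
    have key : grefl * gtr (τ : S) = (gtr (τ : S))⁻¹ * grefl := by
      apply pext
      show PCB.refl * tr _ = (tr _)⁻¹ * PCB.refl
      rw [tr_inv]
      ext x
      rw [Equiv.Perm.mul_apply, Equiv.Perm.mul_apply, refl_apply, tr_apply, tr_apply, refl_apply,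
        neg_add]
    have key' := congrArg proj key
    simp only [map_mul, map_inv] at key' ⊢
    rw [ha, hc]
    exact key'
  have r3 : perm a' * perm b' = perm b' * perm a' := by
    rw [← pm, ← pm]
    refine hinj _ (Λ.mul_mem haΛ' hbΛ') _ (Λ.mul_mem hbΛ' haΛ') ?_
    have key : grho ((τ : S), 0) * grho (((τ ^ 2 : ℝ) : S), 0) =
        grho (((τ ^ 2 : ℝ) : S), 0) * grho ((τ : S), 0) := by
      apply pext
      show rho _ * rho _ = rho _ * rho _
      rw [← rho_add, ← rho_add, add_comm]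
    have key' := congrArg proj key
    simp only [map_mul] at key' ⊢
    rw [ha', hb']
    exact key'
  have r4 : perm c * perm a' = perm a' * perm c := by
    rw [← pm, ← pm]
    refine hinj _ (Λ.mul_mem hcΛ haΛ') _ (Λ.mul_mem haΛ' hcΛ) ?_
    have key : grho (0, 1) * grho ((τ : S), 0) = grho ((τ : S), 0) * grho (0, 1) := by
      apply pext
      show rho _ * rho _ = rho _ * rho _
      rw [← rho_add, ← rho_add, add_comm]
    have key' := congrArg proj key
    have e : proj grefl = proj (grho (0, 1)) := proj_of_near near_refl_rho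
    simp only [map_mul] at key' ⊢
    rw [ha', hc, e]
    exact key'
  -- first model: a fixed point
  obtain ⟨p, hp⟩ : ∃ p : S, perm c p = p := by
    obtain ⟨Θ, hΘ⟩ := conj_exact (τ : S) ((τ ^ 2 : ℝ) : S) (ind_S hτ) (perm a) (perm b) (perm c)
      r1 (near_of_proj ha) (near_of_proj hb) (fun x => -x) (near_of_proj hc) (-1)
      (by rw [zpow_neg_one]; exact r2) (fun x => by rw [neg_add, neg_smul, one_smul])
    refine ⟨Θ 0, ?_⟩
    rw [hΘ, neg_zero]
  -- second model: no fixed point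
  let M : Equiv.Perm S → Equiv.Perm (S × ZMod 2) := fun f => (kap.symm.trans f).trans kap
  have hM : ∀ f x, M f x = kap (f (kap.symm x)) := fun f x => rfl
  have hMmul : ∀ f g : Equiv.Perm S, M (f * g) = M f * M g := by
    intro f g
    apply Equiv.ext
    intro x
    rw [Equiv.Perm.mul_apply, hM, hM, hM, Equiv.symm_apply_apply, Equiv.Perm.mul_apply]
  have hMnear : ∀ (f : PC) (v : S × ZMod 2), proj f = proj (grho v) →
      {x | M (perm f) x ≠ x + v}.Finite := by
    intro f v h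
    refine ((near_of_proj h).preimage kap.symm.injective.injOn).subset ?_
    intro x hx hcon
    apply hx
    rw [hM, hcon]
    show kap (rho v _) = _
    rw [rho_apply, Equiv.apply_symm_apply, Equiv.apply_symm_apply]
  have hc2 : proj c = proj (grho (0, 1)) := hc.trans (proj_of_near near_refl_rho)
  obtain ⟨Θ, hΘ⟩ := conj_exact (((τ : S), 0) : S × ZMod 2) (((τ ^ 2 : ℝ) : S), 0)
    (by
      intro m n h
      apply ind_S hτ m n
      have := congrArg Prod.fst h
      simpa using this)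
    (M (perm a')) (M (perm b')) (M (perm c))
    (by rw [← hMmul, ← hMmul, r3]) (hMnear a' _ ha') (hMnear b' _ hb')
    (fun x => x + (0, 1)) (hMnear c _ hc2) 1
    (by rw [zpow_one, ← hMmul, ← hMmul, r4])
    (fun x => by rw [one_smul]; abel)
  have h1 := hΘ (Θ⁻¹ (kap p))
  rw [self_inv', hM, Equiv.symm_apply_apply, hp] at h1
  have h2 : Θ⁻¹ (kap p) = Θ⁻¹ (kap p) + (0, 1) := by
    rw [Equiv.Perm.inv_eq_iff_eq]
    exact h1
  have h3 : ((0, 1) : S × ZMod 2) = 0 := by
    have h4 : Θ⁻¹ (kap p) + (0, 1) = Θ⁻¹ (kap p) + 0 := by rw [← h2, add_zero]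
    exact add_left_cancel h4
  have h5 := congrArg Prod.snd h3
  exact absurd h5 (by decide)

/-- There is a finitely generated stably realizable group which is not realizable. -/
theorem main : ∃ Γ : Subgroup PCBow, Γ.FG ∧ StablyRealizable Γ ∧ ¬ Realizable Γ := by
  obtain ⟨V, τ, hq, hτ⟩ := exists_val
  exact ⟨Gam τ, Gam_fg τ, stably hq hτ, not_realizable hτ⟩

end Q78.Stab
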